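import Pool.Agent.H17.VS.TargetsA
import Pool.Agent.H17.VG.TargetsG
import Pool.Agent.H64.VG.DX

/-!
# MP_70ba79_ag: derivations with given values on all coefficients
-/

set_option autoImplicit false

namespace Pool.Agent.H50.VS

open MvPolynomial SC Pool.Agent.H27.LV Pool.Agent.H17.VG Pool.Agent.H17.CI Pool.Agent.H17.VS

theorem pf_DXV (hG1 : T_G1) : T_DXV := by
  intro R k K _ _ _ _ _ _ _ _ κ c hc hal g
  classical
  have : CharZero k := charZero_of_injective_algebraMap (algebraMap R k).injective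
  have : CharZero K := charZero_of_injective_algebraMap (algebraMap R K).injective
  have hb : IsTranscendenceBasis R c := by
    rw [hc.isTranscendenceBasis_iff_isAlgebraic]
    exact IntermediateField.isAlgebraic_adjoin_iff_top.1 hal
  obtain ⟨s, hs⟩ := exists_isTranscendenceBasis k K
  have hbK := hb.sumElim_comp hs
  obtain ⟨θ0, hθ0⟩ := hG1 R k _ _ hb g
  obtain ⟨θ, hθ⟩ := hG1 R K _ _ hbK (Sum.elim (fun _ => 0) (fun M => algebraMap k K (g M)))
  have hθ' : ∀ M : κ, θ (algebraMap k K (c M)) = algebraMap k K (g M) := fun M => hθ (Sum.inr M)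
  refine ⟨θ, ?_, hθ'⟩
  intro a
  refine ⟨θ0 a, ?_⟩
  let δ : Derivation R k K := θ.compAlgebraMap k - (Algebra.linearMap k K).compDer θ0
  have hδ : ∀ a, δ a = θ (algebraMap k K a) - algebraMap k K (θ0 a) := fun a => rfl
  have h1 := Pool.Agent.H64.VG.der_zero c hal δ (fun M => by
    rw [hδ, hθ', hθ0, sub_self]) a
  rw [hδ] at h1
  exact sub_eq_zero.1 h1

end Pool.Agent.H50.VS
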